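import Pool.Agent.Q321.FANU.Defs
import Pool.Agent.Q321.FANU.TaskRankOne
import Pool.Agent.Q321.FANU.TaskPol
import Pool.Agent.Q321.FANU.TaskA1
import Pool.Agent.Q321.FANU.TaskA2
import Pool.Agent.Q321.FANU.TaskC1
import Pool.Agent.Q321.FANU.TaskC2
import Pool.Agent.Q321.FANU.TaskC4
import Pool.Agent.Q321.FANU.TaskTr
import Pool.Agent.Q321.FANU.TaskTwo
import Pool.Agent.Q321.FANU.TaskCase
import Pool.Agent.Q321.FANU.TaskNormal
import Pool.Agent.Q321.FANU.TaskFlanders
import Pool.Agent.Q321.FANU.TaskCoeff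
import Pool.Agent.Q321.FANU.TaskClass
import Pool.Agent.Q321.FANU.TaskUp53
import Pool.Agent.Q321.FANU.TaskUp42
import Pool.Agent.Q321.FANU.TaskLow31
import Pool.Agent.Q321.FANU.TaskLow20
import Pool.Agent.Q321.FANU.TaskTrU
import Pool.Agent.Q321.FANU.TaskClosed
import Pool.Agent.Q321.FANU.TaskZC
import Pool.Agent.Q321.FANU.TaskEx
import Pool.Agent.Q321.FANU.TaskFinal

set_option autoImplicit false

universe u

namespace Pool.Agent.Results.MP_d51aa1_ag.Disconnected

open H321.FANU.D

/-- The Fano scheme of 10-planes in the scheme of 5x5 matrices of rank at most 3 is disconnected, over every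
algebraically closed field: its points are the disjoint union of two nonempty Zariski closed sets. -/
theorem result (K : Type u) [Field K] [IsAlgClosed K] :
    ∃ C D : Set (FanoPoint K), ZariskiClosed K C ∧ ZariskiClosed K D ∧ C.Nonempty ∧ D.Nonempty ∧
      C ∩ D = ∅ ∧ C ∪ D = Set.univ := by
  have hcase := H321.FANU.TaskCase.main H321.FANU.TaskRankOne.main H321.FANU.TaskPol.main H321.FANU.TaskA1.main
    H321.FANU.TaskA2.main H321.FANU.TaskC1.main H321.FANU.TaskC2.main H321.FANU.TaskC4.main H321.FANU.TaskTr.main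
    H321.FANU.TaskTwo.main
  have hclass := H321.FANU.TaskClass.main H321.FANU.TaskNormal.main H321.FANU.TaskFlanders.main
    H321.FANU.TaskCoeff.main hcase
  have : Infinite K := IsAlgClosed.instInfinite
  obtain ⟨C, D, hC, hD, ⟨U1, h1, h1'⟩, ⟨U2, h2, h2'⟩, hor, hand⟩ := H321.FANU.TaskFinal.main hclass
    H321.FANU.TaskUp53.main H321.FANU.TaskUp42.main H321.FANU.TaskLow31.main H321.FANU.TaskLow20.main
    H321.FANU.TaskTrU.main H321.FANU.TaskClosed.main H321.FANU.TaskZC.main H321.FANU.TaskEx.main K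
  have hz : ∀ C : Submodule K (Matrix (Fin 5) (Fin 5) K) → Prop, H321.FANU.ZC K C →
      ZariskiClosed K {U | C U.1} := by
    rintro C ⟨S, hS⟩
    refine ⟨S, fun U b hb => ?_⟩
    have hli : LinearIndependent K b := by
      rw [linearIndependent_iff_card_eq_finrank_span, Set.finrank, hb, U.2.1]
      simp
    have := hS b hli
    rw [hb] at this
    exact this
  refine ⟨{U | C U.1}, {U | D U.1}, hz C hC, hz D hD, ⟨⟨U1, h1⟩, h1'⟩, ⟨⟨U2, h2⟩, h2'⟩, ?_, ?_⟩
  · ext U
    constructor
    · rintro ⟨a, b⟩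
      exact hand U.1 U.2 ⟨a, b⟩
    · intro h
      exact h.elim
  · ext U
    constructor
    · intro _
      trivial
    · intro _
      exact hor U.1 U.2

end Pool.Agent.Results.MP_d51aa1_ag.Disconnected
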